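import Pool.Agent.Y501.SY.Stm

/-!
# Project SY (helper501): pull-back of a smooth closed two-form by a smooth map of manifolds
-/

set_option autoImplicit false

open Set Filter Topology MeasureTheory
open scoped Manifold ContDiff

noncomputable section

namespace Pool.Agent.Y604.SY

open Pool.Agent.Y501.SY

/-! ### Smoothness of the pull-back of alternating maps -/

section alt

variable {V V' : Type} [NormedAddCommGroup V] [NormedSpace ℝ V]
  [NormedAddCommGroup V'] [NormedSpace ℝ V'] {ι : Type} [Fintype ι] [DecidableEq ι]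

/-- half of the alternatization, a left inverse of the inclusion -/
def altL : ContinuousMultilinearMap ℝ (fun _ : ι => V) ℝ →L[ℝ] V [⋀^ι]→L[ℝ] ℝ :=
  LinearMap.mkContinuous
    { toFun := fun f => ((Fintype.card (Equiv.Perm ι) : ℝ))⁻¹ •
        ContinuousMultilinearMap.alternatization f
      map_add' := fun f g => by
        rw [map_add, smul_add]
      map_smul' := fun r f => by
        ext v
        simp only [ContinuousAlternatingMap.smul_apply,
          ContinuousMultilinearMap.alternatization_apply_apply,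
          _root_.smul_apply, RingHom.id_apply, smul_eq_mul, Finset.mul_sum]
        refine Finset.sum_congr rfl fun τ _ => ?_
        rw [mul_smul_comm, mul_smul_comm, mul_smul_comm]
        congr 1
        ring } 1 fun f => by
    refine ContinuousAlternatingMap.opNorm_le_bound _ (by positivity) fun v => ?_
    have h0 : (0 : ℝ) < Fintype.card (Equiv.Perm ι) := by exact_mod_cast Fintype.card_pos
    have h1 : ‖(ContinuousMultilinearMap.alternatization f) v‖ ≤
        Fintype.card (Equiv.Perm ι) * (‖f‖ * ∏ i, ‖v i‖) := by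
      rw [ContinuousMultilinearMap.alternatization_apply_apply]
      refine (norm_sum_le _ _).trans ?_
      have h2 : ∀ τ ∈ (Finset.univ : Finset (Equiv.Perm ι)),
          ‖Equiv.Perm.sign τ • f (v ∘ τ)‖ ≤ ‖f‖ * ∏ i, ‖v i‖ := by
        intro τ _
        have h3 : ‖Equiv.Perm.sign τ • f (v ∘ τ)‖ = ‖f (v ∘ τ)‖ := by
          rcases Int.units_eq_one_or (Equiv.Perm.sign τ) with h | h
          · rw [h, one_smul]
          · rw [h, Units.neg_smul, one_smul, norm_neg]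
        rw [h3]
        refine (f.le_opNorm _).trans (le_of_eq ?_)
        congr 1
        exact Equiv.prod_comp τ fun i => ‖v i‖
      refine (Finset.sum_le_card_nsmul _ _ _ h2).trans (le_of_eq ?_)
      rw [nsmul_eq_mul, Finset.card_univ]
    show ‖((Fintype.card (Equiv.Perm ι) : ℝ))⁻¹ • (ContinuousMultilinearMap.alternatization f) v‖ ≤
      1 * ‖f‖ * ∏ i, ‖v i‖
    rw [norm_smul, norm_inv, Real.norm_of_nonneg h0.le, inv_mul_le_iff₀ h0, one_mul]
    exact h1

theorem altL_coe (g : V [⋀^ι]→L[ℝ] ℝ) : altL g.toContinuousMultilinearMap = g := by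
  ext v
  show ((Fintype.card (Equiv.Perm ι) : ℝ))⁻¹ •
    (ContinuousMultilinearMap.alternatization g.toContinuousMultilinearMap) v = g v
  rw [ContinuousMultilinearMap.alternatization_apply_apply]
  have h1 : ∀ τ ∈ (Finset.univ : Finset (Equiv.Perm ι)),
      Equiv.Perm.sign τ • g.toContinuousMultilinearMap (v ∘ τ) = g v := by
    intro τ _
    have h2 : g.toContinuousMultilinearMap (v ∘ τ) = Equiv.Perm.sign τ • g v :=
      g.toAlternatingMap.map_perm v τ
    rw [h2, smul_smul]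
    have h3 : Equiv.Perm.sign τ * Equiv.Perm.sign τ = 1 := Int.units_mul_self _
    rw [h3, one_smul]
  rw [Finset.sum_congr rfl h1, Finset.sum_const, Finset.card_univ, nsmul_eq_mul, smul_eq_mul]
  have h0 : (Fintype.card (Equiv.Perm ι) : ℝ) ≠ 0 := by
    have : 0 < Fintype.card (Equiv.Perm ι) := Fintype.card_pos
    positivity
  field_simp

theorem contDiff_pull :
    ContDiff ℝ ∞ (fun q : (V' [⋀^ι]→L[ℝ] ℝ) × (V →L[ℝ] V') => q.1.compContinuousLinearMap q.2) := by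
  have h1 : (fun q : (V' [⋀^ι]→L[ℝ] ℝ) × (V →L[ℝ] V') => q.1.compContinuousLinearMap q.2) =
      fun q => altL ((ContinuousMultilinearMap.compContinuousLinearMapContinuousMultilinear ℝ
        (fun _ : ι => V) (fun _ : ι => V') ℝ (fun _ => q.2))
          (ContinuousAlternatingMap.toContinuousMultilinearMapCLM ℝ q.1)) := by
    funext q
    rw [← altL_coe (q.1.compContinuousLinearMap q.2)]
    rfl
  rw [h1]
  refine (altL (V := V) (ι := ι)).contDiff.comp (ContDiff.clm_apply ?_ ?_)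
  · refine (ContinuousMultilinearMap.contDiff _).comp ?_
    exact contDiff_pi.2 fun _ => contDiff_snd
  · exact (ContinuousLinearMap.contDiff _).comp contDiff_fst

end alt

/-! ### The pull-back -/

section man

variable {d m : ℕ} {X Y : Type} [TopologicalSpace X] [ChartedSpace (E d) X]
  [IsManifold (𝓡 d) ∞ X] [TopologicalSpace Y] [ChartedSpace (E m) Y] [IsManifold (𝓡 m) ∞ Y]

/-- the pull-back of a two-form on `Y` to the model space of another dimension -/
def pbG (σ : Form m Y 2) (F : E d → Y) (p : E d) : (E d) [⋀^Fin 2]→L[ℝ] ℝ :=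
  (σ (F p)).compContinuousLinearMap (mfderiv (𝓡 d) (𝓡 m) F p)

omit [IsManifold (𝓡 m) ∞ Y] in
theorem pbG_congr (σ : Form m Y 2) {F H : E d → Y} {p : E d} (h : F =ᶠ[𝓝 p] H) :
    pbG σ F p = pbG σ H p := by
  have hp : F p = H p := h.eq_of_nhds
  have hd : (mfderiv (𝓡 d) (𝓡 m) F p : E d →L[ℝ] E m) = mfderiv (𝓡 d) (𝓡 m) H p :=
    h.mfderiv_eq
  ext v
  show (σ (F p) : (E m) [⋀^Fin 2]→L[ℝ] ℝ)
      (fun i => (mfderiv (𝓡 d) (𝓡 m) F p : E d →L[ℝ] E m) (v i)) =
    (σ (H p) : (E m) [⋀^Fin 2]→L[ℝ] ℝ)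
      (fun i => (mfderiv (𝓡 d) (𝓡 m) H p : E d →L[ℝ] E m) (v i))
  rw [hd, hp]

omit [IsManifold (𝓡 m) ∞ Y] in
/-- the chain rule -/
theorem pbG_comp (σ : Form m Y 2) {n : ℕ} {Z : Type} [TopologicalSpace Z] [ChartedSpace (E n) Z]
    {f : Z → Y} {φ : E d → Z} {p : E d} (hf : MDifferentiableAt (𝓡 n) (𝓡 m) f (φ p))
    (hφ : MDifferentiableAt (𝓡 d) (𝓡 n) φ p) :
    pbG σ (f ∘ φ) p = ((σ (f (φ p))).compContinuousLinearMap
      (mfderiv (𝓡 n) (𝓡 m) f (φ p))).compContinuousLinearMap (mfderiv (𝓡 d) (𝓡 n) φ p) := by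
  unfold pbG
  rw [mfderiv_comp p hf hφ]
  rfl

end man

theorem t_PULL : S_PULL := by
  intro d m X Y _ _ _ _ _ _ f σ hf hσ hσ'
  have key : ∀ (U : Set (E d)) (φ : E d → X), IsOpen U → ContMDiffOn (𝓡 d) (𝓡 d) ∞ φ U →
      ∀ p₀ ∈ U, ∃ (w : E m → (E m) [⋀^Fin 2]→L[ℝ] ℝ) (ψ : E d → E m),
        ContDiffAt ℝ ∞ w (ψ p₀) ∧ extDeriv w (ψ p₀) = 0 ∧ ContDiffAt ℝ ∞ ψ p₀ ∧
        pb φ (pull (d := d) f σ) =ᶠ[𝓝 p₀]
          fun p => (w (ψ p)).compContinuousLinearMap (fderiv ℝ ψ p) := by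
    intro U φ hU hφ p₀ hp₀
    obtain ⟨c, hc⟩ : ∃ c, c = chartAt (E m) (f (φ p₀)) := ⟨_, rfl⟩
    have hF : ContMDiffOn (𝓡 d) (𝓡 m) ∞ (f ∘ φ) U := hf.comp_contMDiffOn hφ
    have hU' : IsOpen (U ∩ (f ∘ φ) ⁻¹' c.source) :=
      hF.continuousOn.isOpen_inter_preimage hU c.open_source
    have hp₀' : p₀ ∈ U ∩ (f ∘ φ) ⁻¹' c.source := by
      refine ⟨hp₀, ?_⟩
      rw [hc]
      exact mem_chart_source (E m) (f (φ p₀))
    have hcs : ContMDiffOn (𝓡 m) (𝓡 m) ∞ c c.source := by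
      rw [hc]
      exact contMDiffOn_chart
    have hct : ContMDiffOn (𝓡 m) (𝓡 m) ∞ c.symm c.target := by
      rw [hc]
      exact contMDiffOn_chart_symm
    have hψm : ContMDiffOn (𝓡 d) (𝓡 m) ∞ (c ∘ (f ∘ φ)) (U ∩ (f ∘ φ) ⁻¹' c.source) :=
      hcs.comp (hF.mono inter_subset_left) fun p hp => hp.2
    have hψ : ContDiffOn ℝ ∞ (c ∘ (f ∘ φ)) (U ∩ (f ∘ φ) ⁻¹' c.source) :=
      contMDiffOn_iff_contDiffOn.1 hψm
    have hmaps : ∀ p ∈ U ∩ (f ∘ φ) ⁻¹' c.source, (c ∘ (f ∘ φ)) p ∈ c.target := fun p hp =>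
      c.map_source hp.2
    have hw : ContDiffOn ℝ ∞ (pb c.symm σ) c.target := hσ c.target c.symm c.open_target hct
    have hwd : ∀ q ∈ c.target, extDeriv (pb c.symm σ) q = 0 := by
      intro q hq
      rw [hσ' c.target c.symm c.open_target hct q hq]
      ext v
      rfl
    refine ⟨pb c.symm σ, c ∘ (f ∘ φ), hw.contDiffAt (c.open_target.mem_nhds (hmaps p₀ hp₀')),
      hwd _ (hmaps p₀ hp₀'), hψ.contDiffAt (hU'.mem_nhds hp₀'), ?_⟩
    filter_upwards [hU'.mem_nhds hp₀'] with p hp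
    have hφp : MDifferentiableAt (𝓡 d) (𝓡 d) φ p :=
      ((hφ p hp.1).contMDiffAt (hU.mem_nhds hp.1)).mdifferentiableAt (by simp)
    have hfp : MDifferentiableAt (𝓡 d) (𝓡 m) f (φ p) := (hf (φ p)).mdifferentiableAt (by simp)
    have hψp : MDifferentiableAt (𝓡 d) (𝓡 m) (c ∘ (f ∘ φ)) p :=
      ((hψm p hp).contMDiffAt (hU'.mem_nhds hp)).mdifferentiableAt (by simp)
    have hcp : MDifferentiableAt (𝓡 m) (𝓡 m) c.symm ((c ∘ (f ∘ φ)) p) :=
      ((hct _ (hmaps p hp)).contMDiffAt (c.open_target.mem_nhds (hmaps p hp))).mdifferentiableAt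
        (by simp)
    have h1 : pb φ (pull (d := d) f σ) p = pbG σ (f ∘ φ) p := (pbG_comp σ hfp hφp).symm
    have h2 : (f ∘ φ) =ᶠ[𝓝 p] (c.symm ∘ (c ∘ (f ∘ φ))) := by
      filter_upwards [hU'.mem_nhds hp] with r hr
      exact (c.left_inv hr.2).symm
    have h3 : (pb c.symm σ ((c ∘ (f ∘ φ)) p)).compContinuousLinearMap
        (fderiv ℝ (c ∘ (f ∘ φ)) p) = pbG σ (c.symm ∘ (c ∘ (f ∘ φ))) p := by
      rw [pbG_comp σ hcp hψp, mfderiv_eq_fderiv]
      rfl
    rw [h1, pbG_congr σ h2, h3]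
  have hpull : ∀ {w : E m → (E m) [⋀^Fin 2]→L[ℝ] ℝ} {ψ : E d → E m} {p : E d},
      ContDiffAt ℝ ∞ w (ψ p) → ContDiffAt ℝ ∞ ψ p →
      ContDiffAt ℝ ∞ (fun p => (w (ψ p)).compContinuousLinearMap (fderiv ℝ ψ p)) p := by
    intro w ψ p h1 h2
    have h3 : ContDiffAt ℝ ∞ (fun p => (w (ψ p), fderiv ℝ ψ p)) p :=
      (h1.comp p h2).prodMk (h2.fderiv_right (by simp))
    exact contDiff_pull.contDiffAt.comp p h3
  constructor
  · intro U φ hU hφ p hp
    obtain ⟨w, ψ, h1, h2, h3, h4⟩ := key U φ hU hφ p hp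
    exact ((hpull h1 h3).congr_of_eventuallyEq h4).contDiffWithinAt
  · intro U φ hU hφ p hp
    obtain ⟨w, ψ, h1, h2, h3, h4⟩ := key U φ hU hφ p hp
    rw [h4.extDeriv_eq, extDeriv_pullback (r := ∞) (h1.differentiableAt (by simp)) h3 (by
      rw [minSmoothness_of_isRCLikeNormedField]
      exact WithTop.coe_le_coe.2 le_top), h2]
    ext v
    rfl

end Pool.Agent.Y604.SY
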